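import Mathlib

/-!
# Closure of continuous coboundaries for amenable group actions: a counterexample

The infinite dihedral group acts on a two point space by letting every reflection swap the points,
the rotations acting trivially.
-/

open MeasureTheory

namespace Pool.Agent.Results.MP_d52620_an.CoboundaryClosure

/-- Følner's condition: a group is amenable when for every finite set `K` of elements and every
`ε > 0` there is a nonempty finite set `F` with `|gF Δ F| ≤ ε |F|` for all `g` in `K`. -/
def Amenable (G : Type) [Group G] : Prop :=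
  ∀ (K : Set G), K.Finite → ∀ ε : ℝ, 0 < ε →
    ∃ F : Set G, F.Finite ∧ F.Nonempty ∧
      ∀ g ∈ K, ((symmDiff ((fun x => g * x) '' F) F).ncard : ℝ) ≤ ε * (F.ncard : ℝ)

/-- A (real, continuous) cocycle over an action of `G` on `M` by homeomorphisms. -/
def IsCocycle {G M : Type} [Group G] [TopologicalSpace M] [MulAction G M]
    (c : G → C(M, ℝ)) : Prop :=
  ∀ (g h : G) (x : M), c (g * h) x = c g (h • x) + c h x

/-- The cocycle `c` lies in the closure of the coboundaries for the norm
`max_{s ∈ S} sup_x |c(s,x)|`. -/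
def InClosureCoboundaries {G M : Type} [Group G] [TopologicalSpace M] [MulAction G M]
    (S : Finset G) (c : G → C(M, ℝ)) : Prop :=
  ∀ ε : ℝ, 0 < ε → ∃ u : C(M, ℝ), ∀ s ∈ S, ∀ x : M, |c s x - (u (s • x) - u x)| ≤ ε

/-! ### The infinite dihedral group -/

/-- The infinite dihedral group `ℤ ⋊ {1,-1}`. -/
@[ext] structure Dih where
  /-- translation part -/
  n : ℤ
  /-- linear part -/
  e : ℤˣ

instance instDihGroup : Group Dih where
  mul g h := ⟨g.n + g.e * h.n, g.e * h.e⟩
  one := ⟨0, 1⟩
  inv g := ⟨-(g.e * g.n), g.e⟩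
  mul_assoc g h k := by
    apply Dih.ext
    · change g.n + g.e * h.n + ((g.e * h.e : ℤˣ) : ℤ) * k.n = g.n + g.e * (h.n + h.e * k.n)
      push_cast; ring
    · exact mul_assoc _ _ _
  one_mul g := by
    apply Dih.ext
    · change 0 + ((1 : ℤˣ) : ℤ) * g.n = g.n
      simp
    · exact one_mul _
  mul_one g := by
    apply Dih.ext
    · change g.n + g.e * 0 = g.n
      simp
    · exact mul_one _
  inv_mul_cancel g := by
    apply Dih.ext
    · change -(g.e * g.n) + g.e * g.n = 0
      ring
    · change g.e * g.e = 1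
      exact Int.units_mul_self g.e

lemma mul_n (g h : Dih) : (g * h).n = g.n + g.e * h.n := rfl
lemma mul_e (g h : Dih) : (g * h).e = g.e * h.e := rfl
lemma one_n : (1 : Dih).n = 0 := rfl
lemma one_e : (1 : Dih).e = 1 := rfl
lemma inv_n (g : Dih) : (g⁻¹).n = -(g.e * g.n) := rfl
lemma inv_e (g : Dih) : (g⁻¹).e = g.e := rfl

lemma abs_mul_le (g h : Dih) : |(g * h).n| ≤ |g.n| + |h.n| := by
  rw [mul_n]
  refine (abs_add_le _ _).trans ?_
  rw [abs_mul]
  have : |((g.e : ℤˣ) : ℤ)| = 1 := by
    rcases Int.units_eq_one_or g.e with h | h <;> rw [h] <;> norm_num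
  rw [this, one_mul]

/-- the ball of radius `n` -/
noncomputable def B (n : ℕ) : Finset Dih :=
  ((Finset.Icc (-(n : ℤ)) n) ×ˢ (Finset.univ : Finset ℤˣ)).map
    ⟨fun p => ⟨p.1, p.2⟩, fun p q h => by
      have h1 : p.1 = q.1 := congrArg Dih.n h
      have h2 : p.2 = q.2 := congrArg Dih.e h
      exact Prod.ext h1 h2⟩

lemma mem_B (n : ℕ) (g : Dih) : g ∈ B n ↔ |g.n| ≤ n := by
  unfold B
  rw [Finset.mem_map]
  constructor
  · rintro ⟨p, hp, rfl⟩
    simp only [Finset.mem_product, Finset.mem_Icc] at hp
    exact abs_le.mpr hp.1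
  · intro h
    refine ⟨(g.n, g.e), ?_, rfl⟩
    simp only [Finset.mem_product, Finset.mem_Icc, Finset.mem_univ, and_true]
    exact abs_le.mp h

lemma card_B (n : ℕ) : (B n).card = 4 * n + 2 := by
  unfold B
  rw [Finset.card_map, Finset.card_product, Int.card_Icc]
  have : (Finset.univ : Finset ℤˣ).card = 2 := by decide
  rw [this]
  omega

lemma amenable_dih : Amenable Dih := by
  intro K hK ε hε
  obtain ⟨J, hJ⟩ : ∃ J : ℕ, ∀ g ∈ K, g.n.natAbs ≤ J := by
    obtain ⟨J, hJ⟩ := (hK.image (fun g : Dih => g.n.natAbs)).bddAbove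
    exact ⟨J, fun g hg => hJ ⟨g, hg, rfl⟩⟩
  obtain ⟨n, hn⟩ := exists_nat_gt (8 * (J : ℝ) / ε)
  refine ⟨(B n : Set Dih), (B n).finite_toSet, ?_, ?_⟩
  · refine ⟨1, ?_⟩
    rw [Finset.mem_coe, mem_B, one_n]
    simp
  · intro g hg
    classical
    have himg : ((fun x => g * x) '' (B n : Set Dih))
        = ((B n).image (fun x => g * x) : Finset Dih) := by
      simp
    rw [himg, ← Finset.coe_symmDiff, Set.ncard_coe_finset, Set.ncard_coe_finset, card_B]
    set A := (B n).image (fun x => g * x) with hA
    have hAcard : A.card = (B n).card :=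
      Finset.card_image_of_injective _ (mul_right_injective g)
    have hAsub : A ⊆ B (n + J) := by
      intro y hy
      rw [hA, Finset.mem_image] at hy
      obtain ⟨x, hx, rfl⟩ := hy
      rw [mem_B] at hx ⊢
      have h1 := abs_mul_le g x
      have h2 := hJ g hg
      have h3 : |g.n| ≤ J := by
        rw [Int.abs_eq_natAbs]; exact_mod_cast h2
      push_cast
      linarith
    have hBsub : B n ⊆ B (n + J) := by
      intro y hy
      rw [mem_B] at hy ⊢
      push_cast
      have : (0 : ℤ) ≤ J := Int.natCast_nonneg J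
      linarith
    have h1 : (A \ B n).card ≤ 4 * J := by
      have : (A \ B n).card ≤ (B (n + J) \ B n).card :=
        Finset.card_le_card (Finset.sdiff_subset_sdiff hAsub (le_refl _))
      rw [Finset.card_sdiff_of_subset hBsub, card_B, card_B] at this
      omega
    have h2 : (B n \ A).card = (A \ B n).card := by
      have e1 := Finset.card_sdiff_add_card_inter A (B n)
      have e2 := Finset.card_sdiff_add_card_inter (B n) A
      rw [Finset.inter_comm] at e2
      omega
    have h3 : (symmDiff A (B n)).card ≤ 8 * J := by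
      rw [symmDiff_def]
      have := Finset.card_union_le (A \ B n) (B n \ A)
      rw [Finset.sup_eq_union]
      omega
    have h4 : ((symmDiff A (B n)).card : ℝ) ≤ 8 * J := by exact_mod_cast h3
    have h5 : 8 * (J : ℝ) < ε * n := by
      rw [div_lt_iff₀ hε] at hn
      linarith [mul_comm (n : ℝ) ε]
    calc ((symmDiff A (B n)).card : ℝ) ≤ 8 * J := h4
      _ ≤ ε * n := h5.le
      _ ≤ ε * ((4 * n + 2 : ℕ) : ℝ) := by
        apply mul_le_mul_of_nonneg_left _ hε.le
        push_cast
        have : (0 : ℝ) ≤ n := Nat.cast_nonneg n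
        linarith

/-! ### The action on two points -/

/-- the two point space `{1, -1} ⊂ ℝ` -/
abbrev M : Type := ({1, -1} : Set ℝ)

lemma unit_mul_mem (e : ℤˣ) (x : M) : ((e : ℤ) : ℝ) * x.1 ∈ ({1, -1} : Set ℝ) := by
  have h := x.2
  simp only [Set.mem_insert_iff, Set.mem_singleton_iff] at h ⊢
  rcases Int.units_eq_one_or e with rfl | rfl <;> rcases h with h | h <;> rw [h] <;> norm_num

/-- the action of the infinite dihedral group: `(n,e) • x = e x` -/
noncomputable instance instAction : MulAction Dih M where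
  smul g x := ⟨((g.e : ℤ) : ℝ) * x.1, unit_mul_mem g.e x⟩
  one_smul x := by
    apply Subtype.ext
    change (((1 : ℤˣ) : ℤ) : ℝ) * x.1 = x.1
    simp
  mul_smul g h x := by
    apply Subtype.ext
    change (((g.e * h.e : ℤˣ) : ℤ) : ℝ) * x.1 = ((g.e : ℤ) : ℝ) * (((h.e : ℤ) : ℝ) * x.1)
    push_cast; ring

lemma smul_val (g : Dih) (x : M) : (g • x).1 = ((g.e : ℤ) : ℝ) * x.1 := rfl

lemma finM : Finite M := Set.Finite.to_subtype (by simp)

instance instDisc : DiscreteTopology M := by
  have : Finite M := finM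
  infer_instance

/-- the cocycle `c((n,e), x) = n e x` -/
noncomputable def coc (g : Dih) : C(M, ℝ) :=
  ⟨fun x => (g.n : ℝ) * ((g.e : ℤ) : ℝ) * x.1, continuous_of_discreteTopology⟩

lemma coc_apply (g : Dih) (x : M) : coc g x = (g.n : ℝ) * ((g.e : ℤ) : ℝ) * x.1 := rfl

lemma unit_sq (e : ℤˣ) : ((e : ℤ) : ℝ) * ((e : ℤ) : ℝ) = 1 := by
  rcases Int.units_eq_one_or e with rfl | rfl <;> norm_num

lemma coc_cocycle : IsCocycle coc := by
  intro g h x
  simp only [coc_apply, smul_val, mul_n, mul_e]
  have := unit_sq g.e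
  push_cast
  linear_combination ((h.n : ℝ) * ((h.e : ℤ) : ℝ) * x.1) * this

/-- **Main result.** There are a finitely generated amenable group `G`, with a finite symmetric
generating set `S` not containing `1`, an action of `G` by homeomorphisms on a compact metric space
`M`, and a cocycle `c` all of whose mean values `∫ c(g, ·) dμ`, over all invariant Borel probability
measures `μ`, vanish, while `c` is not in the closure of the coboundaries. -/
theorem result :
    ∃ (G : Type) (_ : Group G) (M : Type) (_ : MetricSpace M) (_ : CompactSpace M)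
      (_ : MeasurableSpace M) (_ : BorelSpace M) (_ : MulAction G M)
      (_ : ContinuousConstSMul G M) (S : Finset G) (c : G → C(M, ℝ)),
      Amenable G ∧ Subgroup.closure (S : Set G) = ⊤ ∧ (∀ s ∈ S, s⁻¹ ∈ S) ∧ (1 : G) ∉ S ∧
      IsCocycle c ∧
      (∀ μ : Measure M, IsProbabilityMeasure μ → (∀ g : G, μ.map (fun x => g • x) = μ) →
        ∀ g : G, ∫ x, c g x ∂μ = 0) ∧
      ¬ InClosureCoboundaries S c := by
  classical
  refine ⟨Dih, inferInstance, M, inferInstance, ?_, inferInstance, inferInstance, instAction, ?_,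
    {⟨1, 1⟩, ⟨-1, 1⟩, ⟨0, -1⟩}, coc, amenable_dih, ?_, ?_, ?_, coc_cocycle, ?_, ?_⟩
  · have : Finite M := finM
    infer_instance
  · exact ⟨fun g => continuous_of_discreteTopology⟩
  · rw [eq_top_iff]
    intro g _
    set H := Subgroup.closure
      ((({⟨1, 1⟩, ⟨-1, 1⟩, ⟨0, -1⟩} : Finset Dih)) : Set Dih) with hH
    have hr1 : (⟨1, 1⟩ : Dih) ∈ H := Subgroup.subset_closure (by simp)
    have hs0 : (⟨0, -1⟩ : Dih) ∈ H := Subgroup.subset_closure (by simp)
    have hnat : ∀ k : ℕ, (⟨k, 1⟩ : Dih) ∈ H := by
      intro k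
      induction k with
      | zero => exact H.one_mem
      | succ k ih =>
        have := H.mul_mem ih hr1
        have e : (⟨k, 1⟩ : Dih) * ⟨1, 1⟩ = ⟨((k + 1 : ℕ) : ℤ), 1⟩ := by
          apply Dih.ext
          · rw [mul_n]; simp
          · rw [mul_e]; simp
        rwa [e] at this
    have hr : ∀ i : ℤ, (⟨i, 1⟩ : Dih) ∈ H := by
      intro i
      obtain ⟨k, rfl | rfl⟩ := i.eq_nat_or_neg
      · exact hnat k
      · have := H.inv_mem (hnat k)
        have e : (⟨k, 1⟩ : Dih)⁻¹ = ⟨-(k : ℤ), 1⟩ := by
          apply Dih.ext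
          · rw [inv_n]; simp
          · rw [inv_e]
        rwa [e] at this
    obtain ⟨i, e⟩ := g
    rcases Int.units_eq_one_or e with rfl | rfl
    · exact hr i
    · have := H.mul_mem (hr i) hs0
      have e : (⟨i, 1⟩ : Dih) * ⟨0, -1⟩ = ⟨i, -1⟩ := by
        apply Dih.ext
        · rw [mul_n]; simp
        · rw [mul_e]; simp
      rwa [e] at this
  · intro s hs
    simp only [Finset.mem_insert, Finset.mem_singleton] at hs ⊢
    rcases hs with rfl | rfl | rfl
    · right; left
      apply Dih.ext
      · rw [inv_n]; simp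
      · rw [inv_e]
    · left
      apply Dih.ext
      · rw [inv_n]; simp
      · rw [inv_e]
    · right; right
      apply Dih.ext
      · rw [inv_n]; simp
      · rw [inv_e]
  · simp only [Finset.mem_insert, Finset.mem_singleton]
    intro h
    rcases h with h | h | h
    · have := congrArg Dih.n h
      rw [one_n] at this
      norm_num at this
    · have := congrArg Dih.n h
      rw [one_n] at this
      norm_num at this
    · have := congrArg Dih.e h
      rw [one_e] at this
      exact absurd this (by decide)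
  · intro μ hμ hinv g
    have hswap := hinv (⟨0, -1⟩ : Dih)
    have hmeas : Measurable (fun x : M => (⟨0, -1⟩ : Dih) • x) :=
      (continuous_of_discreteTopology :
        Continuous (fun x : M => (⟨0, -1⟩ : Dih) • x)).measurable
    have h1 : ∫ x : M, x.1 ∂μ = ∫ x : M, ((⟨0, -1⟩ : Dih) • x).1 ∂μ := by
      conv_lhs => rw [← hswap]
      rw [integral_map hmeas.aemeasurable]
      exact continuous_subtype_val.aestronglyMeasurable
    have h2 : ∫ x : M, ((⟨0, -1⟩ : Dih) • x).1 ∂μ = - ∫ x : M, x.1 ∂μ := by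
      rw [← integral_neg]
      congr 1
      funext x
      rw [smul_val]
      norm_num
    have h3 : ∫ x : M, x.1 ∂μ = 0 := by linarith
    simp only [coc_apply]
    rw [integral_const_mul, h3, mul_zero]
  · intro h
    obtain ⟨u, hu⟩ := h (1 / 2) (by norm_num)
    have := hu (⟨1, 1⟩ : Dih) (by simp) ⟨1, by simp⟩
    rw [coc_apply] at this
    have e : (⟨1, 1⟩ : Dih) • (⟨1, by simp⟩ : M) = ⟨1, by simp⟩ := by
      apply Subtype.ext
      rw [smul_val]
      norm_num
    rw [e] at this
    norm_num at this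

end Pool.Agent.Results.MP_d52620_an.CoboundaryClosure
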